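import Pool.Agent.Helper65.EB.Law
import Pool.Agent.Helper65.EV.Dens2

set_option autoImplicit false

open Finset Filter Topology

/-!
# From the uniform second moment inequality to natural densities
-/

namespace Pool.Agent.Helper65.EB

open Pool.Agent.H396R2 Pool.Agent.TH854.BV
open Pool.Agent.Helper65.ET (ind ind_zero_or_one ind_nonneg summable_a summable_exp tsum_exp_le
  tsum_ind_le)

/-- a bound for the place up to which the set has `R` elements -/
noncomputable def Nf (h : ℕ) (δ : ℝ) (N₁ : ℕ) (R : ℝ) : ℕ := max N₁ ⌈(max R 0) ^ h / (1 - δ)⌉₊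

lemma Nf_mono (h : ℕ) {δ : ℝ} (hδ : δ < 1) (N₁ : ℕ) {R R' : ℝ} (hR : R ≤ R') :
    Nf h δ N₁ R ≤ Nf h δ N₁ R' := by
  unfold Nf
  have h1 : (0 : ℝ) < 1 - δ := by linarith
  have h2 : (0 : ℝ) ≤ max R 0 := le_max_right _ _
  gcongr

lemma growth {h : ℕ} (hh : h ≠ 0) {δ : ℝ} (hδ : δ < 1) {N₁ : ℕ} {A : Set ℕ} (R : ℝ)
    (hY : (Set.ncard {n : ℕ | n < Nf h δ N₁ R + 1 ∧ rep A h n < 1} : ℝ) ≤
      δ * ((Nf h δ N₁ R + 1 : ℕ) : ℝ)) :
    R ≤ ((FT A (Nf h δ N₁ R)).card : ℝ) := by
  classical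
  set T := Nf h δ N₁ R with hT
  have h2 : (max R 0) ^ h / (1 - δ) ≤ T :=
    (Nat.le_ceil _).trans (by exact_mod_cast le_max_right _ _)
  have h3 : (max R 0) ^ h < (1 - δ) * ((T + 1 : ℕ) : ℝ) := by
    rw [div_le_iff₀ (by linarith)] at h2
    push_cast
    nlinarith
  have h4 := hY
  set S : Finset ℕ := (range (T + 1)).filter (fun n => ¬ rep A h n < 1) with hS
  set Y : Finset ℕ := (range (T + 1)).filter (fun n => rep A h n < 1) with hYdef
  have h5 : {n : ℕ | n < T + 1 ∧ rep A h n < 1} = (Y : Set ℕ) := by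
    ext n; simp [hYdef]
  rw [h5, Set.ncard_coe_finset] at h4
  have h6 : Y.card + S.card = T + 1 := by
    rw [hS, hYdef, Finset.card_filter_add_card_filter_not, Finset.card_range]
  have h7 : S.card ≤ (FT A T).card ^ h := by
    have h8 : S ⊆ (Fintype.piFinset (fun _ : Fin h => FT A T)).image (fun f => ∑ i, f i) := by
      intro n hn
      rw [hS, Finset.mem_filter, Finset.mem_range] at hn
      have h9 : rep A h n ≠ 0 := by omega
      unfold rep at h9
      have h10 := Set.nonempty_of_ncard_ne_zero h9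
      obtain ⟨s, hs1, hs2, hs3⟩ := h10
      rw [Finset.mem_image]
      obtain ⟨L, rfl⟩ := Quot.exists_rep s
      have hL : L.length = h := by simpa using hs1
      have hsum : L.sum = n := by simpa using hs3
      refine ⟨fun i => L.get (i.cast hL.symm), ?_, ?_⟩
      · rw [Fintype.mem_piFinset]
        intro i
        rw [mem_FT]
        have hm : L.get (i.cast hL.symm) ∈ L := List.get_mem _ _
        refine ⟨hs2 _ (by simp), ?_⟩
        have := List.single_le_sum (by intro x _; exact Nat.zero_le x) _ hm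
        omega
      · subst hL
        rw [← hsum]
        simpa using List.sum_ofFn (f := L.get)
    refine (Finset.card_le_card h8).trans (Finset.card_image_le.trans ?_)
    rw [Fintype.card_piFinset]
    simp
  have h8 : (max R 0) ^ h < ((FT A T).card : ℝ) ^ h := by
    have h9 : (S.card : ℝ) ≤ ((FT A T).card : ℝ) ^ h := by exact_mod_cast h7
    have h10 : (Y.card : ℝ) + S.card = ((T + 1 : ℕ) : ℝ) := by exact_mod_cast h6
    nlinarith
  have h9 := lt_of_pow_lt_pow_left₀ h (Nat.cast_nonneg _) h8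
  exact (le_max_left R 0).trans h9.le

/-- removing elements of `A` -/
lemma rep_mono {A A' : Set ℕ} (hA : A' ⊆ A) (h n : ℕ) : rep A' h n ≤ rep A h n := by
  unfold rep
  exact Set.ncard_le_ncard (fun s hs => ⟨hs.1, fun a ha => hA (hs.2.1 a ha), hs.2.2⟩)
    (rep_set_finite A h n)

lemma rep_congr {A A' : Set ℕ} (h n : ℕ) (hA : ∀ a, a ≤ n → (a ∈ A' ↔ a ∈ A)) :
    rep A' h n = rep A h n := by
  unfold rep
  congr 1
  ext s
  constructor
  · rintro ⟨h1, h2, h3⟩
    refine ⟨h1, fun a ha => (hA a ?_).1 (h2 a ha), h3⟩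
    rw [← h3]; exact Multiset.single_le_sum (fun _ _ => Nat.zero_le _) a ha
  · rintro ⟨h1, h2, h3⟩
    refine ⟨h1, fun a ha => (hA a ?_).2 (h2 a ha), h3⟩
    rw [← h3]; exact Multiset.single_le_sum (fun _ _ => Nat.zero_le _) a ha

/-- if `h a < N` for all `a ∈ A` then no number `n ≥ N` is a sum of `h` elements -/
lemma rep_zero {A : Set ℕ} {h N n : ℕ} (hN : 0 < N) (hA : ∀ a ∈ A, a * h < N) (hn : N ≤ n) :
    rep A h n = 0 := by
  unfold rep
  rw [Set.ncard_eq_zero (rep_set_finite A h n), Set.eq_empty_iff_forall_notMem]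
  rintro s ⟨h1, h2, h3⟩
  by_cases h0 : h = 0
  · subst h0
    rw [Multiset.card_eq_zero] at h1
    rw [h1, Multiset.sum_zero] at h3
    omega
  · have h4 : (s.map (fun a => a * h)).sum ≤ Multiset.card s • (N - 1) := by
      have := Multiset.sum_le_card_nsmul (s.map (fun a => a * h)) (N - 1) (fun x hx => by
        rw [Multiset.mem_map] at hx
        obtain ⟨a, ha, rfl⟩ := hx
        have := hA a (h2 a ha)
        omega)
      rwa [Multiset.card_map] at this
    rw [Multiset.sum_map_mul_right, Multiset.map_id', h3, h1, smul_eq_mul, mul_comm h] at h4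
    have h5 := Nat.le_of_mul_le_mul_right h4 (Nat.pos_of_ne_zero h0)
    omega

/-- the Abel mean in exponential form -/
lemma mean_exp (f : ℕ → ℝ) (t : ℝ) :
    ∑' n : ℕ, Real.exp (-t) ^ n * f n = ∑' n : ℕ, f n * Real.exp (-(t * n)) := by
  refine tsum_congr fun n => ?_
  rw [← Real.exp_nat_mul, mul_comm]
  congr 2; ring

set_option maxHeartbeats 1000000 in
theorem density1 (k m : ℕ) (hmk : m ≤ k) (hm : 1 ≤ m) (l K C : ℕ) (δ : ℝ) (hl : 1 ≤ l) (hlK : l ≤ K)
    (hδ : δ < 1 - ((K : ℝ) + l - 1 + 1 / ((k + m).choose m : ℝ)) ^ 2 / (4 * l * K)) :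
    ∃ c : ℝ, 0 < c ∧ ∀ N₁ : ℕ, ∃ N₀ : ℕ, ∀ A : Set ℕ, (∀ n, rep A (k + m) n ≤ C) →
      ∀ N : ℕ, N₀ ≤ N → (∀ N' : ℕ, N₁ ≤ N' → N' ≤ N →
        (Set.ncard {n : ℕ | n < N' ∧ rep A (k + m) n < l} : ℝ) ≤ δ * N') →
      c * N ≤ (Set.ncard {n : ℕ | n < N ∧ K < rep A (k + m) n} : ℝ) := by
  have hl1 : (1 : ℝ) ≤ l := by exact_mod_cast hl
  have hlK' : (l : ℝ) ≤ K := by exact_mod_cast hlK
  have hK0 : (0 : ℝ) < K := by linarith
  have hl0 : (0 : ℝ) < l := by linarith
  set B : ℝ := (K : ℝ) + l - 1 + 1 / ((k + m).choose m : ℝ) with hB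
  have hB2 : 0 ≤ B ^ 2 / (4 * l * K) := by positivity
  have hδ1 : δ < 1 := by linarith
  set g : ℝ := l * K * (1 - δ) - B ^ 2 / 4 with hg
  have hg0 : 0 < g := by
    have h1 : B ^ 2 / (4 * l * K) < 1 - δ := by linarith
    rw [div_lt_iff₀ (by positivity)] at h1
    rw [hg]; linarith
  set D : ℝ := (C : ℝ) ^ 2 + 1 + l * K with hD
  have hD0 : 0 < D := by rw [hD]; positivity
  set W : ℝ := 8 * D / g + 1 with hW
  have hW0 : 1 ≤ W := by
    have : 0 ≤ 8 * D / g := by positivity
    rw [hW]; linarith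
  refine ⟨g / (4 * D * W), by positivity, fun N₁ => ?_⟩
  obtain ⟨R₀, hlaw⟩ := law (Nf (k + m) δ N₁) k m hmk hm C (g / 4) (by positivity)
  -- the points `exp (- W / N)`
  have hlimW : Tendsto (fun N : ℕ => W / (N : ℝ)) atTop (𝓝 0) :=
    tendsto_const_div_atTop_nhds_zero_nat _
  have hq : Tendsto (fun N : ℕ => Real.exp (-(W / (N : ℝ)))) atTop (𝓝[<] 1) := by
    rw [tendsto_nhdsWithin_iff]
    constructor
    · have := (Real.continuous_exp.tendsto (-0)).comp hlimW.neg
      rw [neg_zero, Real.exp_zero] at this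
      exact this
    · filter_upwards [eventually_gt_atTop 0] with N hN
      rw [Set.mem_Iio, Real.exp_lt_one_iff, neg_lt_zero]
      have : (0 : ℝ) < N := by exact_mod_cast hN
      positivity
  have hlim3 : Tendsto (fun N : ℕ => (l * K * (|δ| + N₁)) * (W / (N : ℝ))) atTop (𝓝 0) := by
    have h3 := hlimW.const_mul ((l : ℝ) * K * (|δ| + N₁))
    simpa using h3
  have hev := (hlim3.eventually (gt_mem_nhds (show (0 : ℝ) < g / 4 by positivity))).and
    (hq.eventually hlaw)
  obtain ⟨N0, hN0⟩ := exists_nat_ge W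
  obtain ⟨N1, hN1'⟩ := eventually_atTop.mp hev
  refine ⟨max (max N1 (N0 + 1)) (max (N₁ + 1) (Nf (k + m) δ N₁ R₀ + 1)), fun A hA N hNN hY => ?_⟩
  obtain ⟨hN1, hN2⟩ := hN1' N (((le_max_left _ _).trans (le_max_left _ _)).trans hNN)
  have hNN0 : N0 + 1 ≤ N := ((le_max_right _ _).trans (le_max_left _ _)).trans hNN
  have hNN1 : N₁ + 1 ≤ N := ((le_max_left _ _).trans (le_max_right _ _)).trans hNN
  have hNN2 : Nf (k + m) δ N₁ R₀ + 1 ≤ N := ((le_max_right _ _).trans (le_max_right _ _)).trans hNN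
  have hNW : W < N := by
    have : (N0 : ℝ) + 1 ≤ N := by exact_mod_cast hNN0
    linarith
  have hNpos : (0 : ℝ) < N := by linarith
  have hδ0 : 0 ≤ δ := by
    have h1 := hY (N₁ + 1) (by omega) hNN1
    have h2 : (0 : ℝ) ≤ (Set.ncard {n : ℕ | n < N₁ + 1 ∧ rep A (k + m) n < l} : ℝ) := by positivity
    have h3 : (0 : ℝ) < ((N₁ + 1 : ℕ) : ℝ) := by positivity
    by_contra h4
    push Not at h4
    have h5 : δ * ((N₁ + 1 : ℕ) : ℝ) < 0 := mul_neg_of_neg_of_pos h4 h3
    linarith
  have hgr : ∀ R ≤ R₀, R ≤ ((FT A (Nf (k + m) δ N₁ R)).card : ℝ) := by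
    intro R hR
    apply growth (by omega) hδ1
    have h0 := Nf_mono (k + m) hδ1 N₁ hR
    have h00 : N₁ ≤ Nf (k + m) δ N₁ R := le_max_left _ _
    set T := Nf (k + m) δ N₁ R with hT
    refine le_trans ?_ (hY (T + 1) (by omega) (by omega))
    have : {n : ℕ | n < T + 1 ∧ rep A (k + m) n < 1} ⊆ {n : ℕ | n < T + 1 ∧ rep A (k + m) n < l} := by
      rintro n ⟨h1, h2⟩
      exact ⟨h1, by omega⟩
    exact_mod_cast Set.ncard_le_ncard this ((Set.finite_Iio (T + 1)).subset fun n hn => hn.1)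
  have key := hN2 A hgr hA
  set t : ℝ := W / (N : ℝ) with ht
  have ht0 : 0 < t := by positivity
  have ht1 : t ≤ 1 := by rw [ht, div_le_one hNpos]; exact hNW.le
  set q : ℝ := Real.exp (-t) with hqdef
  have hq0 : 0 < q := Real.exp_pos _
  have hq1 : q < 1 := by rw [hqdef, Real.exp_lt_one_iff]; linarith
  have hqt : 1 - q ≤ t := by
    have := Real.add_one_le_exp (-t)
    rw [hqdef]; linarith
  have h1q : 0 < 1 - q := by linarith
  set r : ℕ → ℝ := fun n => (rep A (k + m) n : ℝ) with hr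
  have hrC : ∀ n, r n ≤ C := fun n => by
    show (rep A (k + m) n : ℝ) ≤ C
    exact_mod_cast hA n
  have hr0 : ∀ n, 0 ≤ r n := fun n => Nat.cast_nonneg _
  -- the two sets
  set X : Set ℕ := {n | K < rep A (k + m) n ∨ N ≤ n} with hX
  set Y : Set ℕ := {n | n < N ∧ rep A (k + m) n < l} with hYs
  have s0 := summable_exp ht0
  have sr : Summable (fun n : ℕ => r n * Real.exp (-(t * n))) := by
    apply Summable.of_nonneg_of_le (fun n => by have := hr0 n; positivity) (fun n => ?_)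
      (s0.mul_left (C : ℝ))
    exact mul_le_mul_of_nonneg_right (hrC n) (Real.exp_pos _).le
  have sr2 : Summable (fun n : ℕ => r n ^ 2 * Real.exp (-(t * n))) := by
    apply Summable.of_nonneg_of_le (fun n => by positivity) (fun n => ?_)
      (s0.mul_left ((C : ℝ) ^ 2))
    exact mul_le_mul_of_nonneg_right (pow_le_pow_left₀ (hr0 n) (hrC n) 2) (Real.exp_pos _).le
  have sX := summable_a (ind_zero_or_one X) ht0
  have sY := summable_a (ind_zero_or_one Y) ht0
  have hpt : ∀ n, (r n - l) * (r n - K) ≤ l * K * ind Y n + D * ind X n := by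
    intro n
    have a0 := ind_nonneg X n
    have a1 := ind_nonneg Y n
    have a2 := hr0 n
    have a3 := hrC n
    have hlK0' : 0 ≤ (l : ℝ) * K := by positivity
    by_cases h1 : K < rep A (k + m) n
    · have e : ind X n = 1 := if_pos (Or.inl h1)
      rw [e]
      have h2 : (K : ℝ) ≤ r n := by
        show (K : ℝ) ≤ (rep A (k + m) n : ℝ)
        exact_mod_cast h1.le
      have h3 : (r n - l) * (r n - K) ≤ r n * r n :=
        mul_le_mul (by linarith) (by linarith) (by linarith) a2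
      have h4 : r n * r n ≤ (C : ℝ) ^ 2 := by rw [← sq]; exact pow_le_pow_left₀ a2 a3 2
      have h5 : 0 ≤ (l : ℝ) * K * ind Y n := by positivity
      rw [hD]; linarith
    · have h2 : r n ≤ K := by
        push Not at h1
        show (rep A (k + m) n : ℝ) ≤ K
        exact_mod_cast h1
      have h6 : 0 ≤ D * ind X n := by positivity
      have h7 : 0 ≤ (l : ℝ) * K * ind Y n := by positivity
      by_cases h3 : rep A (k + m) n < l
      · have h4 : r n ≤ l := by
          show (rep A (k + m) n : ℝ) ≤ l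
          exact_mod_cast h3.le
        have h5 : (r n - l) * (r n - K) ≤ l * K := by nlinarith
        by_cases h8 : n < N
        · have e : ind Y n = 1 := if_pos ⟨h8, h3⟩
          rw [e]
          linarith
        · have e : ind X n = 1 := if_pos (Or.inr (not_lt.mp h8))
          rw [e, hD]
          have : 0 ≤ (C : ℝ) ^ 2 := by positivity
          linarith
      · have h4 : (l : ℝ) ≤ r n := by
          push Not at h3
          show (l : ℝ) ≤ (rep A (k + m) n : ℝ)
          exact_mod_cast h3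
        have h5 : (r n - l) * (r n - K) ≤ 0 :=
          mul_nonpos_of_nonneg_of_nonpos (by linarith) (by linarith)
        linarith
  -- sums
  set S0 := ∑' n : ℕ, Real.exp (-(t * n)) with hS0
  set S1 := ∑' n : ℕ, r n * Real.exp (-(t * n)) with hS1
  set S2 := ∑' n : ℕ, r n ^ 2 * Real.exp (-(t * n)) with hS2
  set TX := ∑' n : ℕ, ind X n * Real.exp (-(t * n)) with hTX
  set TY := ∑' n : ℕ, ind Y n * Real.exp (-(t * n)) with hTY
  have hsum : S2 - (l + K) * S1 + l * K * S0 ≤ l * K * TY + D * TX := by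
    have e1 : S2 - (l + K) * S1 + l * K * S0 =
        ∑' n : ℕ, (r n - l) * (r n - K) * Real.exp (-(t * n)) := by
      rw [hS2, hS1, hS0, ← tsum_mul_left, ← tsum_mul_left, ← sr2.tsum_sub (sr.mul_left _),
        ← (sr2.sub (sr.mul_left _)).tsum_add (s0.mul_left _)]
      exact tsum_congr fun n => by ring
    rw [e1, hTX, hTY, ← tsum_mul_left, ← tsum_mul_left, ← (sY.mul_left _).tsum_add (sX.mul_left _)]
    have s3 : Summable (fun n : ℕ => (r n - l) * (r n - K) * Real.exp (-(t * n))) :=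
      ((sr2.sub (sr.mul_left ((l : ℝ) + K))).add (s0.mul_left ((l : ℝ) * K))).congr
        fun n => by ring
    refine s3.tsum_le_tsum (fun n => ?_) ((sY.mul_left _).add (sX.mul_left _))
    have := mul_le_mul_of_nonneg_right (hpt n) (Real.exp_pos (-(t * n))).le
    linarith
  have hM1 : M1 A (k + m) q = (1 - q) * S1 := by
    unfold M1
    rw [hS1, hqdef, mean_exp]
  have hM2 : M2 A (k + m) q = (1 - q) * S2 := by
    unfold M2
    rw [hS2, hqdef, mean_exp]
  have hM0 : (1 - q) * S0 = 1 := by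
    have e : S0 = ∑' n : ℕ, q ^ n := by
      rw [hS0, hqdef]
      refine tsum_congr fun n => ?_
      rw [← Real.exp_nat_mul]; congr 1; ring
    rw [e, tsum_geometric_of_lt_one hq0.le hq1]
    field_simp
  rw [hM1, hM2] at key
  -- bounds of the two sums
  have bY : (1 - q) * TY ≤ δ + (δ + N₁) * t := by
    have h1 : TY ≤ δ * ((1 + t) / t) + N₁ := by
      apply EV.abel Y hδ0 (fun N' hN' => ?_) ht0
      rcases le_total N' N with h2 | h2
      · refine le_trans ?_ (hY N' hN' h2)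
        have h3 : {n : ℕ | n < N' ∧ n ∈ Y} ⊆ {n : ℕ | n < N' ∧ rep A (k + m) n < l} :=
          fun n hn => ⟨hn.1, hn.2.2⟩
        exact_mod_cast Set.ncard_le_ncard h3 ((Set.finite_Iio N').subset fun n hn => hn.1)
      · have h3 : {n : ℕ | n < N' ∧ n ∈ Y} ⊆ {n : ℕ | n < N ∧ rep A (k + m) n < l} :=
          fun n hn => hn.2
        have h4 : ({n : ℕ | n < N' ∧ n ∈ Y}.ncard : ℝ) ≤
            ({n : ℕ | n < N ∧ rep A (k + m) n < l}.ncard : ℝ) := by
          exact_mod_cast Set.ncard_le_ncard h3 ((Set.finite_Iio N).subset fun n hn => hn.1)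
        have h5 := hY N (by omega) le_rfl
        have h6 : (N : ℝ) ≤ N' := by exact_mod_cast h2
        have h7 := mul_le_mul_of_nonneg_left h6 hδ0
        linarith
    have h2 : 0 ≤ δ * ((1 + t) / t) + N₁ := by positivity
    calc (1 - q) * TY ≤ t * (δ * ((1 + t) / t) + N₁) := by
          refine (mul_le_mul_of_nonneg_left h1 h1q.le).trans ?_
          exact mul_le_mul_of_nonneg_right hqt h2
      _ = δ + (δ + N₁) * t := by field_simp; ring
  have bX : (1 - q) * TX ≤ t * (Set.ncard {n : ℕ | n < N ∧ K < rep A (k + m) n} : ℝ) +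
      2 * Real.exp (-W) := by
    have h1 := tsum_ind_le X N ht0
    have e : t * N = W := by rw [ht]; field_simp
    have e' : {n | n < N ∧ n ∈ X} = {n : ℕ | n < N ∧ K < rep A (k + m) n} := by
      ext n
      constructor
      · rintro ⟨h1, h2 | h2⟩
        · exact ⟨h1, h2⟩
        · omega
      · exact fun h1 => ⟨h1.1, Or.inl h1.2⟩
    rw [e, e'] at h1
    have h2 : 0 ≤ ({n : ℕ | n < N ∧ K < rep A (k + m) n}.ncard : ℝ) +
        Real.exp (-W) * ((1 + t) / t) := by positivity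
    have h3 := Real.exp_pos (-W)
    calc (1 - q) * TX ≤ t * (({n : ℕ | n < N ∧ K < rep A (k + m) n}.ncard : ℝ) +
          Real.exp (-W) * ((1 + t) / t)) := by
          refine (mul_le_mul_of_nonneg_left h1 h1q.le).trans ?_
          exact mul_le_mul_of_nonneg_right hqt h2
      _ = t * ({n : ℕ | n < N ∧ K < rep A (k + m) n}.ncard : ℝ) + Real.exp (-W) * (1 + t) := by
          field_simp
      _ ≤ t * ({n : ℕ | n < N ∧ K < rep A (k + m) n}.ncard : ℝ) + Real.exp (-W) * 2 := by
          gcongr; linarith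
      _ = _ := by rw [mul_comm 2]
  set cX : ℝ := (Set.ncard {n : ℕ | n < N ∧ K < rep A (k + m) n} : ℝ) with hcX
  have hsum2 := mul_le_mul_of_nonneg_left hsum h1q.le
  set M : ℝ := (1 - q) * S1 with hM
  have e1 : (1 - q) * (S2 - (l + K) * S1 + l * K * S0) = (1 - q) * S2 - (l + K) * M + l * K := by
    calc (1 - q) * (S2 - (l + K) * S1 + l * K * S0) =
        (1 - q) * S2 - (l + K) * ((1 - q) * S1) + l * K * ((1 - q) * S0) := by ring
      _ = _ := by rw [hM0, hM]; ring
  have e2 : (1 - q) * (l * K * TY + D * TX) = l * K * ((1 - q) * TY) + D * ((1 - q) * TX) := by ring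
  rw [e1, e2] at hsum2
  have hlK0 : 0 ≤ (l : ℝ) * K := by positivity
  have f1 := mul_le_mul_of_nonneg_left bY hlK0
  have f2 := mul_le_mul_of_nonneg_left bX hD0.le
  have f3 : -(B ^ 2 / 4) ≤ M ^ 2 - B * M := by nlinarith [sq_nonneg (M - B / 2)]
  have f4 : (1 - 1 / ((k + m).choose m : ℝ)) = K + l - B := by rw [hB]; ring
  rw [f4] at key
  have f5 : D * (2 * Real.exp (-W)) ≤ g / 4 := by
    have h3 : Real.exp (-W) ≤ 1 / W := by
      rw [Real.exp_neg, ← one_div]
      apply one_div_le_one_div_of_le (by positivity)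
      linarith [Real.add_one_le_exp W]
    have h4 : 8 * D / g ≤ W := by rw [hW]; linarith
    rw [div_le_iff₀ hg0] at h4
    calc D * (2 * Real.exp (-W)) ≤ D * (2 * (1 / W)) := by gcongr
      _ = 2 * D / W := by ring
      _ ≤ g / 4 := by
          rw [div_le_iff₀ (by linarith)]
          linarith
  have f6 : (l : ℝ) * K * ((δ + N₁) * t) ≤ g / 4 := by
    have := hN1.le
    rw [abs_of_nonneg hδ0] at this
    linarith
  have f7 : g / 4 ≤ D * (t * cX) := by
    have h1 : l * K * (1 - δ) = g + B ^ 2 / 4 := by rw [hg]; ring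
    nlinarith
  rw [div_mul_eq_mul_div, div_le_iff₀ (by positivity)]
  have f8 := mul_le_mul_of_nonneg_right f7 hNpos.le
  have f9 : D * (t * cX) * N = D * W * cX := by
    rw [ht]; field_simp
  rw [f9] at f8
  linarith

/-- The density statement for finite sets of integers. -/
theorem density (k m : ℕ) (hmk : m ≤ k) (hm : 1 ≤ m) (l K C : ℕ) (δ : ℝ) (hl : 1 ≤ l) (hlK : l ≤ K)
    (hδ : δ < 1 - ((K : ℝ) + l - 1 + 1 / ((k + m).choose m : ℝ)) ^ 2 / (4 * l * K)) :
    ∃ c : ℝ, 0 < c ∧ ∀ N₁ : ℕ, ∃ N₀ : ℕ, ∀ (A : Set ℕ) (N : ℕ), N₀ ≤ N →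
      (∀ n, n < N → rep A (k + m) n ≤ C) →
      (∀ N' : ℕ, N₁ ≤ N' → N' ≤ N →
        (Set.ncard {n : ℕ | n < N' ∧ rep A (k + m) n < l} : ℝ) ≤ δ * N') →
      c * N ≤ (Set.ncard {n : ℕ | n < N ∧ K < rep A (k + m) n} : ℝ) := by
  obtain ⟨c, hc, h⟩ := density1 k m hmk hm l K C δ hl hlK hδ
  set H := k + m with hH
  have hH0 : 0 < H := by omega
  have hHr : (0 : ℝ) < H := by exact_mod_cast hH0
  refine ⟨c / H, by positivity, fun N₁ => ?_⟩
  obtain ⟨N₀, h1⟩ := h N₁
  refine ⟨H * (N₀ + 1), fun A N hN hA hY => ?_⟩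
  have hN0 : 0 < N := lt_of_lt_of_le (by positivity) hN
  set M := (N + H - 1) / H with hM
  have hMi : ∀ n, n < M ↔ n * H < N := by
    intro n
    rw [hM, ← Nat.succ_le_iff, Nat.le_div_iff_mul_le hH0, Nat.succ_mul]
    omega
  have hMN : M ≤ N := by
    by_contra h2
    push Not at h2
    have h3 := (hMi N).1 h2
    have h4 : N * 1 ≤ N * H := Nat.mul_le_mul_left _ hH0
    omega
  have hM0 : N₀ ≤ M := by
    by_contra h2
    push Not at h2
    have h3 : ¬ M < M := lt_irrefl _
    rw [hMi] at h3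
    have h4 : M * H ≤ N₀ * H := Nat.mul_le_mul_right _ h2.le
    have h5 : H * (N₀ + 1) = N₀ * H + H := by ring
    omega
  have hMH : (N : ℝ) ≤ M * H := by
    have h3 : ¬ M < M := lt_irrefl _
    rw [hMi] at h3
    push Not at h3
    exact_mod_cast h3
  set A' : Set ℕ := {a | a ∈ A ∧ a * H < N} with hA'
  have hsub : A' ⊆ A := fun a ha => ha.1
  have hcongr : ∀ n, n < M → rep A' H n = rep A H n := by
    intro n hn
    rw [hMi] at hn
    apply rep_congr
    intro a ha
    constructor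
    · exact fun h2 => h2.1
    · exact fun h2 => ⟨h2, lt_of_le_of_lt (Nat.mul_le_mul_right _ ha) hn⟩
  have hC : ∀ n, rep A' H n ≤ C := by
    intro n
    rcases lt_or_ge n N with h2 | h2
    · exact (rep_mono hsub H n).trans (hA n h2)
    · rw [rep_zero hN0 (fun a ha => ha.2) h2]; exact Nat.zero_le _
  have h2 := h1 A' hC M hM0 (by
    intro N' hN' hN'2
    refine le_trans ?_ (hY N' hN' (hN'2.trans hMN))
    have h3 : {n : ℕ | n < N' ∧ rep A' H n < l} ⊆ {n : ℕ | n < N' ∧ rep A H n < l} := by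
      rintro n ⟨h4, h5⟩
      rw [hcongr n (by omega)] at h5
      exact ⟨h4, h5⟩
    exact_mod_cast Set.ncard_le_ncard h3 ((Set.finite_Iio N').subset fun n hn => hn.1))
  have h3 : (Set.ncard {n : ℕ | n < M ∧ K < rep A' H n} : ℝ) ≤
      (Set.ncard {n : ℕ | n < N ∧ K < rep A H n} : ℝ) := by
    have h4 : {n : ℕ | n < M ∧ K < rep A' H n} ⊆ {n : ℕ | n < N ∧ K < rep A H n} := by
      rintro n ⟨h5, h6⟩
      rw [hcongr n h5] at h6
      exact ⟨by omega, h6⟩
    exact_mod_cast Set.ncard_le_ncard h4 ((Set.finite_Iio N).subset fun n hn => hn.1)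
  refine le_trans ?_ (h2.trans h3)
  rw [div_mul_eq_mul_div, div_le_iff₀ hHr, mul_assoc]
  exact mul_le_mul_of_nonneg_left hMH hc.le

end Pool.Agent.Helper65.EB
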